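import Mathlib

set_option autoImplicit false

/-!
# Inversions of the rotations of a permutation

For a permutation `σ` of `Fin n` some rotation of the word `σ 0, …, σ (n-1)` has at most
`(n - 1) (5 n - 3) / 16` inversions.
-/

open Finset

namespace Pool.Agent.H263_Sort

set_option linter.unusedSectionVars false

variable {n : ℕ} [NeZero n]

/-- The number of inversions of the word `σ a, σ (a+1), …` (the rotation which starts at `a`). -/
def rinv (σ : Equiv.Perm (Fin n)) (a : Fin n) : ℕ :=
  ((univ : Finset (Fin n × Fin n)).filter (fun p => p.1 < p.2 ∧ σ (p.2 + a) < σ (p.1 + a))).card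

/-- The letters smaller than `σ s`, by their places in the rotation which starts just after `s`. -/
def low (σ : Equiv.Perm (Fin n)) (s : Fin n) : Finset (Fin n) :=
  univ.filter (fun j => σ (j + (s + 1)) < σ s)

/-- The sum of the places of the small letters. -/
def PP (σ : Equiv.Perm (Fin n)) (s : Fin n) : ℕ := ∑ j ∈ low σ s, j.val

lemma card_lt_pairs (S : Finset (Fin n)) :
    2 * ((S ×ˢ S).filter (fun p => p.1 < p.2)).card + S.card = S.card * S.card := by
  have h1 : ((S ×ˢ S).filter (fun p => p.1 < p.2)).card =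
      ((S ×ˢ S).filter (fun p => p.2 < p.1)).card := by
    refine card_equiv (Equiv.prodComm _ _) ?_
    rintro ⟨a, b⟩
    simp [and_comm]
  have h2 : ((S ×ˢ S).filter (fun p => p.1 = p.2)).card = S.card := by
    symm
    refine card_bij (fun a _ => (a, a)) ?_ ?_ ?_
    · intro a ha; simp [ha]
    · intro a _ b _ h; simpa using h
    · rintro ⟨a, b⟩ h
      simp only [mem_filter, mem_product] at h
      exact ⟨a, h.1.1, by rw [← h.2]⟩
  have h3 : (S ×ˢ S) = (S ×ˢ S).filter (fun p => p.1 < p.2) ∪
      ((S ×ˢ S).filter (fun p => p.2 < p.1) ∪ (S ×ˢ S).filter (fun p => p.1 = p.2)) := by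
    ext ⟨a, b⟩
    simp only [mem_union, mem_filter, mem_product]
    rcases lt_trichotomy a b with h | h | h
    · simp [h, h.ne, not_lt.2 h.le]
    · subst h; simp
    · simp [h, h.ne', not_lt.2 h.le]
  have h4 : (S ×ˢ S).card = S.card * S.card := card_product _ _
  rw [h3, card_union_of_disjoint, card_union_of_disjoint, ← h1, h2] at h4
  · omega
  · rw [disjoint_filter]
    intro p _ h h'
    exact absurd h' (ne_of_gt h)
  · rw [disjoint_union_right, disjoint_filter, disjoint_filter]
    refine ⟨fun p _ h h' => absurd h (not_lt.2 h'.le), fun p _ h h' => absurd h' (ne_of_lt h)⟩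

lemma card_low (σ : Equiv.Perm (Fin n)) (s : Fin n) : (low σ s).card = (σ s).val := by
  rw [← Fin.card_Iio (σ s)]
  refine card_equiv ((Equiv.addRight (s + 1)).trans σ) ?_
  intro j
  simp [low, add_assoc]

lemma PP_eq (σ : Equiv.Perm (Fin n)) (s : Fin n) :
    PP σ s = (((univ : Finset (Fin n)) ×ˢ low σ s).filter (fun p => p.1 < p.2)).card := by
  unfold PP
  rw [card_filter, sum_product_right]
  refine sum_congr rfl fun j _ => ?_
  rw [← card_filter]
  have : (univ.filter (fun i : Fin n => i < j)) = Iio j := by ext; simp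
  rw [this, Fin.card_Iio]

lemma PP_ge (σ : Equiv.Perm (Fin n)) (s : Fin n) :
    (σ s).val * (σ s).val ≤ 2 * PP σ s + (σ s).val := by
  have h := card_lt_pairs (low σ s)
  rw [card_low] at h
  have h2 : ((low σ s ×ˢ low σ s).filter (fun p => p.1 < p.2)).card ≤ PP σ s := by
    rw [PP_eq]
    refine card_le_card (filter_subset_filter _ (product_subset_product_left (subset_univ _)))
  omega

lemma rinv_le (σ : Equiv.Perm (Fin n)) (s : Fin n) :
    2 * rinv σ (s + 1) + (n - (σ s).val) ≤
      2 * PP σ s + (n - (σ s).val) * (n - (σ s).val) := by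
  have h := card_lt_pairs ((low σ s)ᶜ)
  rw [card_compl, card_low, Fintype.card_fin] at h
  have h2 : rinv σ (s + 1) ≤ PP σ s +
      (((low σ s)ᶜ ×ˢ (low σ s)ᶜ).filter (fun p => p.1 < p.2)).card := by
    rw [PP_eq]
    unfold rinv
    refine le_trans (card_le_card ?_) (card_union_le _ _)
    rintro ⟨i, j⟩ hp
    simp only [mem_filter, mem_univ, true_and] at hp
    simp only [mem_union, mem_filter, mem_product, mem_univ, true_and, mem_compl]
    by_cases hj : j ∈ low σ s
    · exact Or.inl ⟨hj, hp.1⟩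
    · refine Or.inr ⟨⟨?_, hj⟩, hp.1⟩
      intro hi
      apply hj
      simp only [low, mem_filter, mem_univ, true_and] at hi ⊢
      exact hp.2.trans hi
  omega

/-- the number of `i` with `i < i + e` -/
lemma card_shift (e : Fin n) (he : e ≠ 0) :
    ((univ : Finset (Fin n)).filter (fun i => i < e + i)).card + e.val = n := by
  have hn : 0 < n := Nat.pos_of_ne_zero (NeZero.ne n)
  have he' : 0 < e.val := Nat.pos_of_ne_zero (fun h => he (Fin.ext h))
  have h1 : ((univ : Finset (Fin n)).filter (fun i => i < e + i)) =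
      univ.filter (fun i : Fin n => i.val < n - e.val) := by
    ext i
    simp only [mem_filter, mem_univ, true_and, Fin.lt_def, Fin.val_add]
    have hi := i.2
    have hee := e.2
    constructor
    · intro h
      by_contra hc
      have : e.val + i.val = n + (e.val + i.val - n) := by omega
      rw [this, Nat.add_mod_left, Nat.mod_eq_of_lt (by omega)] at h
      omega
    · intro h
      rw [Nat.mod_eq_of_lt (by omega)]
      omega
  rw [h1]
  have h2 : (univ.filter (fun i : Fin n => i.val < n - e.val)).card = n - e.val := by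
    rw [Fin.card_filter_val_lt]
    omega
  rw [h2]
  have := e.2
  omega

lemma sum_rinv (σ : Equiv.Perm (Fin n)) :
    ∑ a, rinv σ a + ∑ s, PP σ s = ∑ s, (n - 1) * (σ s).val := by
  have h1 : ∑ a, rinv σ a = ∑ s, ∑ k ∈ low σ s,
      ((univ : Finset (Fin n)).filter (fun i => i < (k + 1) + i)).card := by
    calc ∑ a, rinv σ a
        = ∑ a : Fin n, ∑ i : Fin n, ∑ j : Fin n,
            (if i < j ∧ σ (j + a) < σ (i + a) then 1 else 0) := by
          refine sum_congr rfl fun a _ => ?_
          unfold rinv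
          rw [card_filter, ← univ_product_univ, sum_product]
      _ = ∑ i : Fin n, ∑ a : Fin n, ∑ j : Fin n,
            (if i < j ∧ σ (j + a) < σ (i + a) then 1 else 0) := sum_comm
      _ = ∑ i : Fin n, ∑ s : Fin n, ∑ k : Fin n,
            (if i < (k + 1) + i ∧ σ (k + (s + 1)) < σ s then 1 else 0) := by
          refine sum_congr rfl fun i _ => ?_
          rw [← Equiv.sum_comp (Equiv.subRight i)]
          refine sum_congr rfl fun s _ => ?_
          rw [← Equiv.sum_comp (Equiv.addRight (1 + i))]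
          refine sum_congr rfl fun k _ => ?_
          have e1 : (Equiv.addRight (1 + i)) k = (k + 1) + i := by simp [add_assoc]
          have e2 : (k + 1) + i + (Equiv.subRight i) s = k + (s + 1) := by
            simp only [Equiv.subRight_apply]; abel
          have e3 : i + (Equiv.subRight i) s = s := by
            simp only [Equiv.subRight_apply]; abel
          rw [e1, e2, e3]
      _ = ∑ s : Fin n, ∑ k : Fin n, ∑ i : Fin n,
            (if i < (k + 1) + i ∧ σ (k + (s + 1)) < σ s then 1 else 0) := by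
          rw [sum_comm]
          refine sum_congr rfl fun s _ => ?_
          rw [sum_comm]
      _ = _ := by
          refine sum_congr rfl fun s _ => ?_
          unfold low
          rw [sum_filter]
          refine sum_congr rfl fun k _ => ?_
          by_cases hk : σ (k + (s + 1)) < σ s
          · simp only [hk, and_true, if_true, card_filter]
          · simp only [hk, and_false, if_false, sum_const_zero]
  rw [h1, ← sum_add_distrib]
  refine sum_congr rfl fun s _ => ?_
  have hn : 0 < n := Nat.pos_of_ne_zero (NeZero.ne n)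
  have hk : ∀ k ∈ low σ s,
      ((univ : Finset (Fin n)).filter (fun i => i < (k + 1) + i)).card + k.val = n - 1 := by
    intro k hk
    have hlt : k.val + 1 < n := by
      by_contra hc
      have hk1 : k.val = n - 1 := by have := k.2; omega
      have h0 : k + 1 = 0 := by
        apply Fin.ext
        rw [Fin.val_add, hk1]
        rcases Nat.lt_or_ge 1 n with h1 | h1
        · rw [Fin.val_one', Nat.mod_eq_of_lt h1, Nat.sub_add_cancel hn, Nat.mod_self]; rfl
        · have : n = 1 := by omega
          subst this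
          simp
      simp only [low, mem_filter, mem_univ, true_and] at hk
      have : k + (s + 1) = s := by
        rw [add_comm s 1, ← add_assoc, h0, zero_add]
      rw [this] at hk
      exact lt_irrefl _ hk
    have hv : (k + 1).val = k.val + 1 := by
      rw [Fin.val_add, Fin.val_one', Nat.mod_eq_of_lt (by omega : 1 < n), Nat.mod_eq_of_lt hlt]
    have hne : k + 1 ≠ 0 := by
      intro h
      rw [h] at hv
      simp at hv
    have := card_shift (k + 1) hne
    rw [hv] at this
    omega
  unfold PP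
  rw [← sum_add_distrib, sum_congr rfl hk, sum_const, card_low, smul_eq_mul, mul_comm]

lemma sum_PP (σ : Equiv.Perm (Fin n)) :
    2 * (∑ a, rinv σ a + ∑ s, PP σ s) = (n - 1) * (n * (n - 1)) := by
  rw [sum_rinv, ← mul_sum, Equiv.sum_comp σ (fun r : Fin n => (r.val : ℕ)),
    Fin.sum_univ_eq_sum_range (fun r => r) n, mul_left_comm, ← Finset.sum_range_id_mul_two]
  ring

/-- The two lower bounds for `2 * PP σ s` as a function of the value `r = σ s`. -/
def G (n F r : ℤ) (a b : ℤ) : ℤ :=
  if a ≤ r ∧ r < b then 2 * F - (n - r) * (n - r - 1) else r * (r - 1)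

lemma sum_r (k : ℕ) : 3 * ∑ r ∈ range k, ((r : ℤ) * (r - 1)) = k * (k - 1) * (k - 2) := by
  induction k with
  | zero => simp
  | succ k ih => rw [sum_range_succ, mul_add, ih]; push_cast; ring

lemma sum_q (N : ℤ) (k : ℕ) : 3 * ∑ r ∈ range k, (N ^ 2 - N - 2 * N * r + 2 * (r : ℤ) ^ 2) =
    3 * k * (N ^ 2 - N) - 3 * N * k * (k - 1) + k * (k - 1) * (2 * k - 1) := by
  induction k with
  | zero => simp
  | succ k ih => rw [sum_range_succ, mul_add, ih]; push_cast; ring

lemma main_ineq (σ : Equiv.Perm (Fin n)) (F : ℕ) (hF : ∀ a, F ≤ rinv σ a) (a b : ℕ) (hab : a ≤ b)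
    (hb : b ≤ n) :
    6 * ((n : ℤ) + b - a) * F ≤ (n : ℤ) * (n - 1) * (2 * n - 1) +
      (3 * b * ((n : ℤ) ^ 2 - n) - 3 * n * b * (b - 1) + b * (b - 1) * (2 * b - 1)) -
      (3 * a * ((n : ℤ) ^ 2 - n) - 3 * n * a * (a - 1) + a * (a - 1) * (2 * a - 1)) := by
  have hn : 0 < n := Nat.pos_of_ne_zero (NeZero.ne n)
  -- pointwise lower bound
  have hP : ∀ s : Fin n, G n F (σ s).val a b ≤ 2 * (PP σ s : ℤ) := by
    intro s
    have hr : (σ s).val < n := (σ s).2
    unfold G
    split_ifs with h
    · have h1 := rinv_le σ s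
      have h2 := hF (s + 1)
      zify [hr.le] at h1 h2
      linarith
    · have h1 := PP_ge σ s
      zify at h1
      linarith
  have hsum : (n : ℤ) * F ≤ ∑ a, (rinv σ a : ℤ) := by
    have : ∑ _a : Fin n, (F : ℤ) ≤ ∑ a, (rinv σ a : ℤ) :=
      sum_le_sum fun a _ => by exact_mod_cast hF a
    simpa using this
  have htot : 2 * (∑ a, (rinv σ a : ℤ) + ∑ s, (PP σ s : ℤ)) = (n - 1) * (n * (n - 1)) := by
    have := sum_PP σ
    zify [hn] at this
    simpa using this
  have hG : ∑ s : Fin n, G n F (σ s).val a b ≤ 2 * ∑ s, (PP σ s : ℤ) := by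
    rw [mul_sum]
    exact sum_le_sum fun s _ => hP s
  have hG2 : ∑ s : Fin n, G n F (σ s).val a b = ∑ r ∈ range n, G n F r a b := by
    rw [Equiv.sum_comp σ (fun r : Fin n => G n F (r.val : ℤ) a b),
      Fin.sum_univ_eq_sum_range (fun r => G n F (r : ℤ) a b) n]
  have hG3 : ∑ r ∈ range n, G n F r a b = ∑ r ∈ range n, ((r : ℤ) * (r - 1)) +
      ∑ r ∈ Ico a b, (2 * (F : ℤ) - ((n : ℤ) ^ 2 - n - 2 * n * r + 2 * (r : ℤ) ^ 2)) := by
    have h1 : Ico a b = (range n).filter (fun r => a ≤ r ∧ r < b) := by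
      ext r
      simp only [mem_Ico, mem_filter, mem_range]
      omega
    rw [h1, sum_filter, ← sum_add_distrib]
    refine sum_congr rfl fun r _ => ?_
    unfold G
    by_cases h : a ≤ r ∧ r < b
    · have h' : (a : ℤ) ≤ r ∧ (r : ℤ) < b := by exact_mod_cast h
      rw [if_pos h, if_pos h']
      ring
    · have h' : ¬ ((a : ℤ) ≤ r ∧ (r : ℤ) < b) := by exact_mod_cast h
      rw [if_neg h, if_neg h', add_zero]
  have hG4 : 3 * ∑ r ∈ Ico a b, (2 * (F : ℤ) - ((n : ℤ) ^ 2 - n - 2 * n * r + 2 * (r : ℤ) ^ 2)) =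
      6 * ((b : ℤ) - a) * F -
      ((3 * b * ((n : ℤ) ^ 2 - n) - 3 * n * b * (b - 1) + b * (b - 1) * (2 * b - 1)) -
      (3 * a * ((n : ℤ) ^ 2 - n) - 3 * n * a * (a - 1) + a * (a - 1) * (2 * a - 1))) := by
    rw [← sum_q n b, ← sum_q n a, sum_sub_distrib, sum_const, Nat.card_Ico,
      sum_Ico_eq_sub _ hab, nsmul_eq_mul]
    push_cast [hab]
    ring
  have h3 := sum_r n
  rw [hG2, hG3] at hG
  nlinarith [hG, hG4, h3, htot, hsum]

/-- Some rotation has at most `(n - 1) (5 n - 3) / 16` inversions. -/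
theorem exists_rotation (σ : Equiv.Perm (Fin n)) :
    ∃ a, 16 * rinv σ a ≤ (n - 1) * (5 * n - 3) := by
  have hn : 0 < n := Nat.pos_of_ne_zero (NeZero.ne n)
  obtain ⟨a₀, -, ha₀⟩ := exists_min_image (univ : Finset (Fin n)) (rinv σ) ⟨0, mem_univ _⟩
  refine ⟨a₀, ?_⟩
  have hF : ∀ a, rinv σ a₀ ≤ rinv σ a := fun a => ha₀ a (mem_univ a)
  obtain ⟨c, ρ, hρ, hc, hnc⟩ : ∃ c ρ : ℕ, ρ < 4 ∧ 1 ≤ c ∧ n + ρ = 4 * c :=
    ⟨(n + 3) / 4, 4 * ((n + 3) / 4) - n, by omega, by omega, by omega⟩
  have h := main_ineq σ (rinv σ a₀) hF c (n - c + 1) (by omega) (by omega)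
  have e1 : ((n - c + 1 : ℕ) : ℤ) = n - c + 1 := by
    have : c ≤ n := by omega
    push_cast [this]; ring
  rw [e1] at h
  have e2 : (n : ℤ) = 4 * c - ρ := by
    have : ((n + ρ : ℕ) : ℤ) = ((4 * c : ℕ) : ℤ) := by rw [hnc]
    push_cast at this; linarith
  zify [hn, (by omega : 3 ≤ 5 * n)]
  have hc' : (1 : ℤ) ≤ c := by exact_mod_cast hc
  generalize hFF : ((rinv σ a₀ : ℕ) : ℤ) = F at h ⊢
  by_contra hcon
  have hcon' := not_le.1 hcon
  have hK : (0 : ℤ) < 6 * (n + (n - c + 1) - c) := by
    rw [e2]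
    have : (ρ : ℤ) < 4 := by exact_mod_cast hρ
    linarith
  have h5 := mul_lt_mul_of_pos_left hcon' hK
  rw [e2] at h h5
  clear hcon hcon' hK e1 e2 hFF hF ha₀
  interval_cases ρ <;> push_cast at h h5 <;> nlinarith [h, h5, hc']

end Pool.Agent.H263_Sort
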